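import Pool.Agent.Q33.Harm.Terms

/-!
The difference of the values at `p ^ (r+1)` and `p ^ r`.
-/

namespace Q33.Harm

open Finset

variable {p : ℕ} [hp : Fact p.Prime]

theorem filter_dvd_eq {q m : ℕ} (hq : 0 < q) :
    (Ico 1 (q * m)).filter (fun j => q ∣ j) = (Ico 1 m).image (fun j => q * j) := by
  ext j
  rw [mem_filter, mem_Ico, mem_image]
  constructor
  · rintro ⟨⟨h1, h2⟩, ⟨k, rfl⟩⟩
    refine ⟨k, ?_, rfl⟩
    rw [mem_Ico]
    refine ⟨Nat.pos_of_ne_zero (by rintro rfl; omega), ?_⟩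
    exact Nat.lt_of_mul_lt_mul_left h2
  · rintro ⟨k, hk, rfl⟩
    rw [mem_Ico] at hk
    exact ⟨⟨Nat.mul_pos hq hk.1, Nat.mul_lt_mul_of_pos_left hk.2 hq⟩, dvd_mul_right _ _⟩

theorem sum_filter_dvd {q m : ℕ} (hq : 0 < q) (f : ℕ → ℤ_[p]) :
    ∑ j ∈ (Ico 1 (q * m)).filter (fun j => q ∣ j), f j = ∑ j ∈ Ico 1 m, f (q * j) := by
  rw [filter_dvd_eq hq, sum_image]
  intro a _ b _ h
  exact Nat.eq_of_mul_eq_mul_left hq h

theorem prod_filter_dvd {q m : ℕ} (hq : 0 < q) (f : ℕ → ℤ_[p]) :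
    ∏ j ∈ (Ico 1 (q * m)).filter (fun j => q ∣ j), f j = ∏ j ∈ Ico 1 m, f (q * j) := by
  rw [filter_dvd_eq hq, prod_image]
  intro a _ b _ h
  exact Nat.eq_of_mul_eq_mul_left hq h

/-- the product over the numbers prime to `p` -/
noncomputable def Q (p : ℕ) [Fact p.Prime] (r N : ℕ) : ℤ_[p] :=
  ∏ i ∈ range N, (1 - (p : ℤ_[p]) ^ (2 * r) * v p i ^ 2)

theorem P_mul (r : ℕ) {j : ℕ} (hj : 0 < j) : P p (r + 1) (p * j) = P p r j * Q p (r + 1) (p * j) := by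
  have hpj : 0 < p * j := Nat.mul_pos hp.out.pos hj
  have h1 : P p (r + 1) (p * j) =
      (∏ i ∈ (Ico 1 (p * j)).filter (fun i => p ∣ i), (1 - X p (r + 1) i ^ 2)) *
      ∏ i ∈ (Ico 1 (p * j)).filter (fun i => ¬ p ∣ i), (1 - X p (r + 1) i ^ 2) := by
    rw [P]
    exact (prod_filter_mul_prod_filter_not _ _ _).symm
  rw [h1, prod_filter_dvd hp.out.pos]
  congr 1
  · rw [P]
    refine prod_congr rfl fun i hi => ?_
    rw [mem_Ico] at hi
    rw [X_mul hi.1]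
  · rw [Q, range_eq_Ico, prod_eq_prod_Ico_succ_bot hpj, v_of_dvd (dvd_zero p), prod_filter]
    rw [zero_pow two_ne_zero, mul_zero, sub_zero, one_mul]
    refine prod_congr rfl fun i _ => ?_
    split_ifs with h
    · rw [v_of_dvd h]; ring
    · rw [X_of_not_dvd h]; ring

/-- `∏ (1 - c a_i) = 1 - c ∑ a_i + c ^ 2 (...)` -/
theorem prod_one_sub (c : ℤ_[p]) (a : ℕ → ℤ_[p]) (N : ℕ) :
    c ^ 2 ∣ (∏ i ∈ range N, (1 - c * a i)) - (1 - c * ∑ i ∈ range N, a i) := by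
  induction N with
  | zero => simp
  | succ N ih =>
    obtain ⟨k, hk⟩ := ih
    rw [prod_range_succ, sum_range_succ]
    refine ⟨k * (1 - c * a N) + (∑ i ∈ range N, a i) * a N, ?_⟩
    linear_combination (1 - c * a N) * hk

theorem Q_sq (r N : ℕ) : ((p : ℤ_[p]) ^ (2 * r)) ^ 2 ∣
    Q p r N ^ 2 - 1 + 2 * (p : ℤ_[p]) ^ (2 * r) * W p 2 N := by
  obtain ⟨k, hk⟩ := prod_one_sub ((p : ℤ_[p]) ^ (2 * r)) (fun i => v p i ^ 2) N
  rw [Q, W]
  set c := (p : ℤ_[p]) ^ (2 * r)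
  set A' := ∏ i ∈ range N, (1 - c * v p i ^ 2)
  set B' := ∑ i ∈ range N, v p i ^ 2
  refine ⟨k * (A' + (1 - c * B')) + B' ^ 2, ?_⟩
  linear_combination (A' + (1 - c * B')) * hk

/-- the terms -/
noncomputable def F (p : ℕ) [Fact p.Prime] (r j : ℕ) : ℤ_[p] :=
  X p r j ^ 3 * (1 - X p r j) * P p r j ^ 2

/-- the sums -/
noncomputable def E (p : ℕ) [Fact p.Prime] (r : ℕ) : ℤ_[p] := ∑ j ∈ Ico 1 (p ^ r), F p r j

/-- general: products of factors `1 - y` with `d ∣ y` -/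
theorem dvd_prod_sub_one {d : ℤ_[p]} (s : Finset ℕ) (y : ℕ → ℤ_[p]) (h : ∀ i ∈ s, d ∣ y i) :
    d ∣ (∏ i ∈ s, (1 - y i)) - 1 := by
  induction s using Finset.induction_on with
  | empty => simp
  | insert a s ha ih =>
    rw [prod_insert ha]
    obtain ⟨k, hk⟩ := ih (fun i hi => h i (mem_insert_of_mem hi))
    obtain ⟨l, hl⟩ := h a (mem_insert_self a s)
    exact ⟨k * (1 - y a) - l, by linear_combination (1 - y a) * hk - hl⟩

theorem P_one {r N : ℕ} (hN : N ≤ p ^ r) : (p : ℤ_[p]) ^ 2 ∣ P p r N - 1 := by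
  rw [P]
  apply dvd_prod_sub_one
  intro i hi
  rw [mem_Ico] at hi
  exact pow_dvd_pow_of_dvd (dvd_X (by rw [mem_Ico]; omega)) 2

theorem sum_split (r : ℕ) : E p (r + 1) =
    ∑ j ∈ range (p ^ (r + 1)), ((p : ℤ_[p]) ^ (r + 1) * v p j) ^ 3 *
      (1 - (p : ℤ_[p]) ^ (r + 1) * v p j) * P p (r + 1) j ^ 2 +
    ∑ j ∈ Ico 1 (p ^ r), F p (r + 1) (p * j) := by
  have hpos : 0 < p ^ (r + 1) := pow_pos hp.out.pos _
  rw [E, ← sum_filter_add_sum_filter_not (Ico 1 (p ^ (r + 1))) (fun j => p ∣ j), add_comm]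
  congr 1
  · rw [range_eq_Ico, sum_eq_sum_Ico_succ_bot hpos, v_of_dvd (dvd_zero p), sum_filter]
    rw [mul_zero, zero_pow (by norm_num), zero_mul, zero_mul, zero_add]
    refine sum_congr rfl fun j _ => ?_
    split_ifs with h
    · rw [v_of_dvd h]; ring
    · rw [F, X_of_not_dvd h]
  · rw [pow_succ', sum_filter_dvd hp.out.pos]

/-- the terms with index prime to `p` -/
theorem first_part (h5 : 5 ≤ p) (r : ℕ) (hr : 1 ≤ r) : (p : ℤ_[p]) ^ (3 * r + 6) ∣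
    ∑ j ∈ range (p ^ (r + 1)), ((p : ℤ_[p]) ^ (r + 1) * v p j) ^ 3 *
      (1 - (p : ℤ_[p]) ^ (r + 1) * v p j) * P p (r + 1) j ^ 2 := by
  set n := (p : ℤ_[p]) ^ (r + 1) with hn
  have hpM : p ∣ p ^ r := dvd_pow_self p (by omega)
  have hM0 : 0 < p ^ r := pow_pos hp.out.pos _
  have hnp : (p : ℤ_[p]) ∣ n := dvd_pow_self _ (by omega)
  have hp1 : ¬ (p - 1) ∣ 3 := by
    intro h
    have := Nat.le_of_dvd (by norm_num) h
    omega
  -- the power sums
  have hW3 : (p : ℤ_[p]) ∣ W p 3 (p ^ r) := by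
    have := dvd_W (p := p) (s := 3) (by norm_num) hp1 (p ^ (r - 1))
    rwa [← pow_succ, show r - 1 + 1 = r by omega] at this
  have hW4 : (p : ℤ_[p]) ∣ W p 4 (p ^ (r + 1)) := by
    have := dvd_W' (p := p) (s := 4) (m := p ^ r) hpM
    rwa [← pow_succ] at this
  have hmain : (p : ℤ_[p]) ^ 3 ∣ W p 3 (p ^ (r + 1)) - n * W p 4 (p ^ (r + 1)) := by
    have h1 := W_reflect (p := p) (M := p ^ (r + 1)) (dvd_pow_self p (by omega))
      (pow_pos hp.out.pos _) (s := 3) ⟨1, rfl⟩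
    have h2 : (p : ℤ_[p]) ^ 3 ∣ ((p ^ (r + 1) : ℕ) : ℤ_[p]) ^ 2 := by
      push_cast
      rw [← pow_mul]
      exact pow_dvd_pow _ (by omega)
    have h3 : (p : ℤ_[p]) ^ 3 ∣ n * W p 4 (p ^ (r + 1)) := by
      obtain ⟨k, hk⟩ := hW4
      refine ⟨(p : ℤ_[p]) ^ (r - 1) * k, ?_⟩
      rw [hk, hn]
      have : (p : ℤ_[p]) ^ (r + 1) = (p : ℤ_[p]) ^ 2 * (p : ℤ_[p]) ^ (r - 1) := by
        rw [← pow_add]; congr 1; omega
      rw [this]; ring
    have h4 : (p : ℤ_[p]) ^ 3 ∣ ((2 : ℕ) : ℤ_[p]) * (W p 3 (p ^ (r + 1)) - n * W p 4 (p ^ (r + 1))) := by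
      have h5 := dvd_sub (h2.trans h1) (Dvd.dvd.mul_left h3 (5 : ℤ_[p]))
      have e : 2 * W p 3 (p ^ (r + 1)) + ((3 : ℕ) : ℤ_[p]) * ((p ^ (r + 1) : ℕ) : ℤ_[p]) *
          W p (3 + 1) (p ^ (r + 1)) - 5 * (n * W p 4 (p ^ (r + 1))) =
          ((2 : ℕ) : ℤ_[p]) * (W p 3 (p ^ (r + 1)) - n * W p 4 (p ^ (r + 1))) := by
        rw [hn]; push_cast; ring
      rwa [e] at h5
    have h2u : IsUnit ((2 : ℕ) : ℤ_[p]) := isUnit_nat (not_dvd_of_lt (by norm_num) (by omega))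
    exact h2u.dvd_mul_left.mp h4
  -- replace the products
  have hrange : p ^ (r + 1) = p * p ^ r := pow_succ' p r
  have hstep : ∀ t ∈ range p, ∀ l ∈ range (p ^ r), (p : ℤ_[p]) ^ 3 ∣
      v p (t * p ^ r + l) ^ 3 * (1 - n * v p (t * p ^ r + l)) * P p (r + 1) (t * p ^ r + l) ^ 2 -
      v p (t * p ^ r + l) ^ 3 * (1 - n * v p (t * p ^ r + l)) * P p (r + 1) (t * p ^ r + 1) ^ 2 := by
    intro t ht l hl
    rw [mem_range] at ht hl
    rcases Nat.eq_zero_or_pos l with h0 | h0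
    · subst h0
      rw [v_of_dvd (show p ∣ t * p ^ r + 0 from Dvd.dvd.mul_left hpM t)]
      simp
    · have h1 : P p (r + 1) (t * p ^ r + l) = P p (r + 1) (t * p ^ r + 1) *
          ∏ i ∈ Ico (t * p ^ r + 1) (t * p ^ r + l), (1 - X p (r + 1) i ^ 2) := by
        rw [P, P, prod_Ico_consecutive _ (by omega) (by omega)]
      have h2 : (p : ℤ_[p]) ^ 3 ∣
          (∏ i ∈ Ico (t * p ^ r + 1) (t * p ^ r + l), (1 - X p (r + 1) i ^ 2)) - 1 := by
        apply dvd_prod_sub_one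
        intro i hi
        rw [mem_Ico] at hi
        have h3 : ¬ p ^ r ∣ i := by
          rintro ⟨k, rfl⟩
          have h4 : t < k := by
            by_contra hc
            rw [not_lt] at hc
            have := Nat.mul_le_mul_left (p ^ r) hc
            rw [mul_comm (p ^ r) t] at this
            omega
          have h5 := Nat.mul_le_mul_left (p ^ r) h4
          rw [Nat.mul_succ, mul_comm (p ^ r) t] at h5
          omega
        have h4 := sq_dvd_X (p := p) (r := r + 1) (j := i) (by omega) (by omega) h3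
        have h5 : (p : ℤ_[p]) ^ 3 ∣ ((p : ℤ_[p]) ^ 2) ^ 2 := by
          rw [← pow_mul]; exact pow_dvd_pow _ (by norm_num)
        exact h5.trans (pow_dvd_pow_of_dvd h4 2)
      obtain ⟨k, hk⟩ := h2
      rw [h1]
      set T := ∏ i ∈ Ico (t * p ^ r + 1) (t * p ^ r + l), (1 - X p (r + 1) i ^ 2)
      refine ⟨v p (t * p ^ r + l) ^ 3 * (1 - n * v p (t * p ^ r + l)) *
        P p (r + 1) (t * p ^ r + 1) ^ 2 * k * (T + 1), ?_⟩
      linear_combination v p (t * p ^ r + l) ^ 3 * (1 - n * v p (t * p ^ r + l)) *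
        P p (r + 1) (t * p ^ r + 1) ^ 2 * (T + 1) * hk
  have hinner : ∀ t ∈ range p, (p : ℤ_[p]) ^ 3 ∣
      (P p (r + 1) (t * p ^ r + 1) ^ 2 - 1) *
        ∑ l ∈ range (p ^ r), v p (t * p ^ r + l) ^ 3 * (1 - n * v p (t * p ^ r + l)) := by
    intro t ht
    rw [mem_range] at ht
    have h1 : (p : ℤ_[p]) ^ 2 ∣ P p (r + 1) (t * p ^ r + 1) ^ 2 - 1 := by
      have h2 : t * p ^ r + 1 ≤ p ^ (r + 1) := by
        rw [hrange]
        have := Nat.mul_le_mul_right (p ^ r) (show t + 1 ≤ p from ht)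
        rw [add_mul, one_mul] at this
        omega
      obtain ⟨k, hk⟩ := P_one (p := p) h2
      exact ⟨k * (P p (r + 1) (t * p ^ r + 1) + 1), by
        linear_combination (P p (r + 1) (t * p ^ r + 1) + 1) * hk⟩
    have h2 : (p : ℤ_[p]) ∣
        ∑ l ∈ range (p ^ r), v p (t * p ^ r + l) ^ 3 * (1 - n * v p (t * p ^ r + l)) := by
      have h3 : (p : ℤ_[p]) ∣
          (∑ l ∈ range (p ^ r), v p (t * p ^ r + l) ^ 3 * (1 - n * v p (t * p ^ r + l))) -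
          W p 3 (p ^ r) := by
        rw [W, ← sum_sub_distrib]
        refine dvd_sum fun l _ => ?_
        have h4 : (p : ℤ_[p]) ∣ v p (t * p ^ r + l) ^ 3 - v p l ^ 3 := by
          have h5 := v_shift_one (p := p) hpM t l
          have h6 : (p : ℤ_[p]) ∣ ((p ^ r : ℕ) : ℤ_[p]) := by
            push_cast; exact dvd_pow_self _ (by omega)
          exact (h6.trans h5).trans (sub_dvd_pow_sub_pow _ _ _)
        obtain ⟨a, ha⟩ := h4
        obtain ⟨b, hb⟩ := hnp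
        exact ⟨a - b * v p (t * p ^ r + l) ^ 4, by
          linear_combination ha - v p (t * p ^ r + l) ^ 4 * hb⟩
      have := dvd_add h3 hW3
      rwa [sub_add_cancel] at this
    rw [pow_succ]
    exact mul_dvd_mul h1 h2
  have htotal : (p : ℤ_[p]) ^ 3 ∣ ∑ j ∈ range (p ^ (r + 1)),
      v p j ^ 3 * (1 - n * v p j) * P p (r + 1) j ^ 2 := by
    have e0 := sum_range_mul (fun j => v p j ^ 3 * (1 - n * v p j) * P p (r + 1) j ^ 2) (p ^ r) p
    have e1 := sum_range_mul (fun j => v p j ^ 3 * (1 - n * v p j)) (p ^ r) p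
    rw [hrange, e0]
    have e2 : W p 3 (p ^ (r + 1)) - n * W p 4 (p ^ (r + 1)) =
        ∑ t ∈ range p, ∑ l ∈ range (p ^ r),
          v p (t * p ^ r + l) ^ 3 * (1 - n * v p (t * p ^ r + l)) := by
      rw [← e1, ← hrange, W, W, mul_sum, ← sum_sub_distrib]
      exact sum_congr rfl fun j _ => by ring
    have h1 := dvd_sum (fun t ht => dvd_sum (hstep t ht))
    have h2 := dvd_sum hinner
    rw [e2] at hmain
    have h3 := dvd_add (dvd_add h1 h2) hmain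
    refine (Eq.subst (motive := fun x => (p : ℤ_[p]) ^ 3 ∣ x) ?_ h3)
    rw [← sum_add_distrib, ← sum_add_distrib]
    refine sum_congr rfl fun t _ => ?_
    have e3 : ∑ l ∈ range (p ^ r), v p (t * p ^ r + l) ^ 3 * (1 - n * v p (t * p ^ r + l)) *
        P p (r + 1) (t * p ^ r + 1) ^ 2 = P p (r + 1) (t * p ^ r + 1) ^ 2 *
        ∑ l ∈ range (p ^ r), v p (t * p ^ r + l) ^ 3 * (1 - n * v p (t * p ^ r + l)) := by
      rw [mul_sum]; exact sum_congr rfl fun l _ => by ring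
    rw [sum_sub_distrib, e3]
    ring
  have hfin : ∑ j ∈ range (p ^ (r + 1)), (n * v p j) ^ 3 * (1 - n * v p j) * P p (r + 1) j ^ 2 =
      n ^ 3 * ∑ j ∈ range (p ^ (r + 1)), v p j ^ 3 * (1 - n * v p j) * P p (r + 1) j ^ 2 := by
    rw [mul_sum]
    exact sum_congr rfl fun j _ => by ring
  rw [hfin]
  have hpw : (p : ℤ_[p]) ^ (3 * r + 6) = n ^ 3 * (p : ℤ_[p]) ^ 3 := by
    rw [hn, ← pow_mul, ← pow_add]; congr 1; ring
  rw [hpw]
  exact mul_dvd_mul_left _ htotal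

end Q33.Harm
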