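import Pool.Agent.Q33.Harm.Bala

/-!
The terms whose index is divisible by `p`, and the theorem.
-/

namespace Q33.Harm

open Finset

variable {p : ℕ} [hp : Fact p.Prime]

theorem dvd_X_mul_W (h5 : 5 ≤ p) {r j : ℕ} (h : j ∈ Ico 1 (p ^ r)) :
    (p : ℤ_[p]) ^ (r + 1) ∣ X p r j * W p 2 (p * j) := by
  rw [mem_Ico] at h
  obtain ⟨s, i, hi, rfl⟩ := exists_form (p := p) h.1
  have hs := lt_of_form hi h.2
  rw [X_eq hi]
  have e : p * (p ^ s * i) = i * p ^ (s + 1) := by rw [pow_succ]; ring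
  rw [e]
  have h1 := W_period (p := p) 2 (M := p ^ (s + 1)) (dvd_pow_self p (by omega)) i
  have h2 := pow_dvd_W_two h5 (s + 1) (by omega)
  have h3 : (p : ℤ_[p]) ^ (s + 1) ∣ W p 2 (i * p ^ (s + 1)) := by
    push_cast at h1
    have := dvd_add h1 (Dvd.dvd.mul_left h2 (i : ℤ_[p]))
    rwa [sub_add_cancel] at this
  obtain ⟨k, hk⟩ := h3
  refine ⟨v p i * k, ?_⟩
  rw [hk]
  have : (p : ℤ_[p]) ^ (r + 1) = (p : ℤ_[p]) ^ (r - s) * (p : ℤ_[p]) ^ (s + 1) := by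
    rw [← pow_add]; congr 1; omega
  rw [this]; ring

theorem step_a (h5 : 5 ≤ p) {r j : ℕ} (h : j ∈ Ico 1 (p ^ r)) :
    (p : ℤ_[p]) ^ (3 * r + 6) ∣ F p (r + 1) (p * j) - F p r j +
      2 * ((p : ℤ_[p]) ^ (2 * (r + 1)) * X p r j ^ 3 * W p 2 (p * j)) := by
  have hj := h
  rw [mem_Ico] at hj
  have hx := dvd_X h
  have hxW := dvd_X_mul_W h5 h
  have hP := P_one (p := p) (r := r) (N := j) hj.2.le
  have hQ := Q_sq (p := p) (r + 1) (p * j)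
  rw [F, F, P_mul r hj.1, X_mul hj.1]
  set x := X p r j
  set c := (p : ℤ_[p]) ^ (2 * (r + 1)) with hc
  set w := W p 2 (p * j)
  set P' := P p r j
  set Q' := Q p (r + 1) (p * j)
  have e : x ^ 3 * (1 - x) * (P' * Q') ^ 2 - x ^ 3 * (1 - x) * P' ^ 2 + 2 * (c * x ^ 3 * w) =
      x ^ 3 * (1 - x) * P' ^ 2 * (Q' ^ 2 - 1 + 2 * c * w) -
        2 * (c * x ^ 2 * (x * w) * ((1 - x) * P' ^ 2 - 1)) := by ring
  rw [e]
  refine dvd_sub ?_ ?_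
  · have h1 : (p : ℤ_[p]) ^ (3 * r + 6) ∣ x ^ 3 * c ^ 2 := by
      have h2 : (p : ℤ_[p]) ^ 3 * c ^ 2 ∣ x ^ 3 * c ^ 2 := mul_dvd_mul_right (pow_dvd_pow_of_dvd hx 3) _
      refine dvd_trans ?_ h2
      rw [hc, ← pow_mul, ← pow_add]
      exact pow_dvd_pow _ (by omega)
    obtain ⟨k, hk⟩ := hQ
    rw [hk]
    refine h1.trans ⟨(1 - x) * P' ^ 2 * k, by ring⟩
  · have h1 : (p : ℤ_[p]) ∣ (1 - x) * P' ^ 2 - 1 := by
      obtain ⟨a, ha⟩ := hx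
      obtain ⟨b, hb⟩ := hP
      exact ⟨b * p * (P' + 1) - a * P' ^ 2, by linear_combination (P' + 1) * hb - P' ^ 2 * ha⟩
    have h2 : c * (p : ℤ_[p]) ^ 2 * (p : ℤ_[p]) ^ (r + 1) * p ∣
        c * x ^ 2 * (x * w) * ((1 - x) * P' ^ 2 - 1) :=
      mul_dvd_mul (mul_dvd_mul (mul_dvd_mul_left _ (pow_dvd_pow_of_dvd hx 2)) hxW) h1
    have h3 : (p : ℤ_[p]) ^ (3 * r + 6) = c * (p : ℤ_[p]) ^ 2 * (p : ℤ_[p]) ^ (r + 1) * p := by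
      rw [hc, ← pow_add, ← pow_add, ← pow_succ]; congr 1; ring
    rw [h3]
    exact Dvd.dvd.mul_left h2 2

theorem step_b (h5 : 5 ≤ p) {r j : ℕ} (hr : 1 ≤ r) (h : j ∈ Ico 1 (p ^ r)) (hd : ¬ p ^ (r - 1) ∣ j) :
    (p : ℤ_[p]) ^ (3 * r + 6) ∣ (p : ℤ_[p]) ^ (2 * (r + 1)) * X p r j ^ 3 * W p 2 (p * j) := by
  have hj := h
  rw [mem_Ico] at hj
  have hxW := dvd_X_mul_W h5 h
  have hx := sq_dvd_X (p := p) hj.1 hr hd
  have e : (p : ℤ_[p]) ^ (2 * (r + 1)) * X p r j ^ 3 * W p 2 (p * j) =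
      (p : ℤ_[p]) ^ (2 * (r + 1)) * X p r j ^ 2 * (X p r j * W p 2 (p * j)) := by ring
  rw [e]
  have h2 : (p : ℤ_[p]) ^ (2 * (r + 1)) * ((p : ℤ_[p]) ^ 2) ^ 2 * (p : ℤ_[p]) ^ (r + 1) ∣
      (p : ℤ_[p]) ^ (2 * (r + 1)) * X p r j ^ 2 * (X p r j * W p 2 (p * j)) :=
    mul_dvd_mul (mul_dvd_mul_left _ (pow_dvd_pow_of_dvd hx 2)) hxW
  refine dvd_trans ?_ h2
  rw [← pow_mul, ← pow_add, ← pow_add]
  exact pow_dvd_pow _ (by omega)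

theorem step_c (h5 : 5 ≤ p) {r : ℕ} (hr : 1 ≤ r) : (p : ℤ_[p]) ^ (3 * r + 6) ∣
    ∑ i ∈ Ico 1 p, (p : ℤ_[p]) ^ (2 * (r + 1)) * X p r (p ^ (r - 1) * i) ^ 3 *
      W p 2 (p * (p ^ (r - 1) * i)) := by
  have hp1 : ¬ (p - 1) ∣ 3 := by
    intro h
    have := Nat.le_of_dvd (by norm_num) h
    omega
  have hp2 : ¬ (p - 1) ∣ 2 := by
    intro h
    have := Nat.le_of_dvd (by norm_num) h
    omega
  have hW3 : (p : ℤ_[p]) ∣ W p 3 (p ^ r) := by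
    have := dvd_W (p := p) (s := 3) (by norm_num) hp1 (p ^ (r - 1))
    rwa [← pow_succ, show r - 1 + 1 = r by omega] at this
  have hV2 : (p : ℤ_[p]) ∣ V p 2 := dvd_V hp2
  have hW2 := pow_dvd_W_two h5 r hr
  have h1 : ∀ i ∈ Ico 1 p, (p : ℤ_[p]) ^ (3 * r + 6) ∣
      (p : ℤ_[p]) ^ (2 * (r + 1)) * X p r (p ^ (r - 1) * i) ^ 3 *
        W p 2 (p * (p ^ (r - 1) * i)) -
      (p : ℤ_[p]) ^ (2 * (r + 1)) * (p : ℤ_[p]) ^ 3 * W p 2 (p ^ r) * v p i ^ 2 := by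
    intro i hi
    have hm := mul_v_of_mem hi
    rw [mem_Ico] at hi
    rw [X_eq (not_dvd_of_lt (by omega) hi.2)]
    have e : p * (p ^ (r - 1) * i) = i * p ^ r := by
      rw [← mul_assoc, ← pow_succ', show r - 1 + 1 = r by omega, mul_comm]
    have e2 : r - (r - 1) = 1 := by omega
    rw [e, e2, pow_one]
    obtain ⟨k, hk⟩ := W_two_shift (p := p) (M := p ^ r) (dvd_pow_self p (by omega)) i hW3
    refine ⟨v p i ^ 3 * k, ?_⟩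
    have e3 : (p : ℤ_[p]) ^ (3 * r + 6) =
        (p : ℤ_[p]) ^ (2 * (r + 1)) * (p : ℤ_[p]) ^ 3 * ((p : ℤ_[p]) * (p : ℤ_[p]) ^ r) := by
      rw [← pow_add, ← pow_succ', ← pow_add]; congr 1; ring
    rw [e3]
    push_cast at hk
    linear_combination (p : ℤ_[p]) ^ (2 * (r + 1)) * (p : ℤ_[p]) ^ 3 * v p i ^ 3 * hk +
      (p : ℤ_[p]) ^ (2 * (r + 1)) * (p : ℤ_[p]) ^ 3 * v p i ^ 2 * W p 2 (p ^ r) * hm
  have h2 := dvd_sum h1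
  rw [sum_sub_distrib, ← mul_sum] at h2
  have h3 : (p : ℤ_[p]) ^ (3 * r + 6) ∣
      (p : ℤ_[p]) ^ (2 * (r + 1)) * (p : ℤ_[p]) ^ 3 * W p 2 (p ^ r) * V p 2 := by
    have h4 : (p : ℤ_[p]) ^ (2 * (r + 1)) * (p : ℤ_[p]) ^ 3 * (p : ℤ_[p]) ^ r * (p : ℤ_[p]) ∣
        (p : ℤ_[p]) ^ (2 * (r + 1)) * (p : ℤ_[p]) ^ 3 * W p 2 (p ^ r) * V p 2 :=
      mul_dvd_mul (mul_dvd_mul_left _ hW2) hV2
    refine dvd_trans ?_ h4
    rw [← pow_add, ← pow_add, ← pow_succ]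
    exact pow_dvd_pow _ (by omega)
  have h4 := dvd_add h2 h3
  rw [V, sub_add_cancel] at h4
  exact h4

theorem second_part (h5 : 5 ≤ p) {r : ℕ} (hr : 1 ≤ r) : (p : ℤ_[p]) ^ (3 * r + 6) ∣
    ∑ j ∈ Ico 1 (p ^ r), (F p (r + 1) (p * j) - F p r j) := by
  have h1 := dvd_sum (fun j (hj : j ∈ Ico 1 (p ^ r)) => step_a h5 hj)
  rw [sum_add_distrib, ← mul_sum] at h1
  have h2 : (p : ℤ_[p]) ^ (3 * r + 6) ∣ ∑ j ∈ Ico 1 (p ^ r),
      (p : ℤ_[p]) ^ (2 * (r + 1)) * X p r j ^ 3 * W p 2 (p * j) := by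
    rw [← sum_filter_add_sum_filter_not (Ico 1 (p ^ r)) (fun j => p ^ (r - 1) ∣ j)]
    refine dvd_add ?_ (dvd_sum fun j hj => ?_)
    · have e : p ^ r = p ^ (r - 1) * p := by rw [← pow_succ]; congr 1; omega
      have e2 := sum_filter_dvd (p := p) (q := p ^ (r - 1)) (m := p) (pow_pos hp.out.pos _)
        (fun j => (p : ℤ_[p]) ^ (2 * (r + 1)) * X p r j ^ 3 * W p 2 (p * j))
      rw [← e] at e2
      rw [e2]
      exact step_c h5 hr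
    · rw [mem_filter] at hj
      exact step_b h5 hr hj.1 hj.2
  have h3 := dvd_sub h1 (Dvd.dvd.mul_left h2 2)
  rwa [add_sub_cancel_right] at h3

theorem E_diff (h5 : 5 ≤ p) {r : ℕ} (hr : 1 ≤ r) :
    (p : ℤ_[p]) ^ (3 * r + 6) ∣ E p (r + 1) - E p r := by
  rw [sum_split, E, add_sub_assoc, ← sum_sub_distrib]
  exact dvd_add (first_part h5 r hr) (second_part h5 hr)

theorem sum_eq_E (r : ℕ) : ((∑ j ∈ range (p ^ r), (p ^ r).choose j * (p ^ r - 1).choose j *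
    ((p ^ r + j - 1).choose j) ^ 2 : ℕ) : ℤ_[p]) = 1 - E p r := by
  have hpos : 0 < p ^ r := pow_pos hp.out.pos _
  rw [range_eq_Ico, sum_eq_sum_Ico_succ_bot hpos, Nat.cast_add, Nat.cast_sum, sub_eq_add_neg]
  congr 1
  · simp
  · rw [E, ← sum_neg_distrib]
    refine sum_congr rfl fun j hj => ?_
    exact term_eq (R := ℤ_[p]) (p ^ r) (X p r) (fun j hj => mul_X hj) j hj

end Q33.Harm
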