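import Mathlib

/-!
Inverses of integers prime to `p` in `ℤ_[p]`, and power sums of them.
-/

namespace Q33.Harm

open Finset

variable (p : ℕ) [hp : Fact p.Prime]

/-- the inverse of `j` in `ℤ_[p]` (if `p` does not divide `j`) -/
noncomputable def v (j : ℕ) : ℤ_[p] := Ring.inverse (j : ℤ_[p])

variable {p}

theorem isUnit_nat {j : ℕ} (h : ¬ p ∣ j) : IsUnit (j : ℤ_[p]) := by
  rw [PadicInt.isUnit_iff, PadicInt.norm_natCast_eq_one_iff]
  exact (Nat.Prime.coprime_iff_not_dvd hp.out).mpr h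

theorem mul_v {j : ℕ} (h : ¬ p ∣ j) : (j : ℤ_[p]) * v p j = 1 :=
  Ring.mul_inverse_cancel _ (isUnit_nat h)

omit hp in
theorem not_dvd_of_lt {j : ℕ} (h0 : 0 < j) (h : j < p) : ¬ p ∣ j := fun hd =>
  absurd (Nat.le_of_dvd h0 hd) (by omega)

theorem mul_v_of_mem {j : ℕ} (h : j ∈ Ico 1 p) : (j : ℤ_[p]) * v p j = 1 := by
  rw [mem_Ico] at h
  exact mul_v (not_dvd_of_lt (by omega) h.2)

/-- the power sums of the inverses -/
noncomputable def V (p : ℕ) [Fact p.Prime] (s : ℕ) : ℤ_[p] := ∑ j ∈ Ico 1 p, v p j ^ s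

theorem toZMod_v {j : ℕ} (h : ¬ p ∣ j) : PadicInt.toZMod (v p j) = ((j : ZMod p))⁻¹ := by
  have h1 := congrArg PadicInt.toZMod (mul_v (p := p) h)
  rw [map_mul, map_natCast, map_one] at h1
  exact eq_inv_of_mul_eq_one_right h1

theorem toZMod_V (s : ℕ) : PadicInt.toZMod (V p s) = if (p - 1) ∣ s then -1 else 0 := by
  have h1 : PadicInt.toZMod (V p s) = ∑ j ∈ Ico 1 p, (((j : ZMod p))⁻¹) ^ s := by
    rw [V, map_sum]
    refine sum_congr rfl fun j hj => ?_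
    rw [mem_Ico] at hj
    rw [map_pow, toZMod_v (not_dvd_of_lt (by omega) hj.2)]
  have h2 : ∑ x : (ZMod p)ˣ, (((x⁻¹ : (ZMod p)ˣ) : ZMod p)) ^ s =
      ∑ j ∈ Ico 1 p, (((j : ZMod p))⁻¹) ^ s := by
    refine sum_bij (fun x _ => (x : ZMod p).val) ?_ ?_ ?_ ?_
    · intro x _
      rw [mem_Ico]
      refine ⟨?_, ZMod.val_lt _⟩
      rw [Nat.one_le_iff_ne_zero, Ne, ZMod.val_eq_zero]
      exact x.ne_zero
    · intro x _ y _ h
      exact Units.ext (ZMod.val_injective p h)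
    · intro j hj
      rw [mem_Ico] at hj
      have hne : ((j : ℕ) : ZMod p) ≠ 0 := by
        rw [Ne, ZMod.natCast_eq_zero_iff]
        exact not_dvd_of_lt (by omega) hj.2
      exact ⟨Units.mk0 _ hne, mem_univ _, by rw [Units.val_mk0]; exact ZMod.val_natCast_of_lt hj.2⟩
    · intro x _
      rw [ZMod.natCast_zmod_val, Units.val_inv_eq_inv_val]
  have h3 : ∑ x : (ZMod p)ˣ, (((x⁻¹ : (ZMod p)ˣ) : ZMod p)) ^ s =
      ∑ x : (ZMod p)ˣ, ((x : ZMod p)) ^ s :=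
    Equiv.sum_comp (Equiv.inv (ZMod p)ˣ) (fun x => ((x : ZMod p)) ^ s)
  rw [h1, ← h2, h3, FiniteField.sum_pow_units, ZMod.card]

theorem dvd_iff_toZMod {x : ℤ_[p]} : (p : ℤ_[p]) ∣ x ↔ PadicInt.toZMod x = 0 := by
  rw [← Ideal.mem_span_singleton, ← PadicInt.maximalIdeal_eq_span_p, ← PadicInt.ker_toZMod,
    RingHom.mem_ker]

theorem dvd_V {s : ℕ} (h : ¬ (p - 1) ∣ s) : (p : ℤ_[p]) ∣ V p s := by
  rw [dvd_iff_toZMod, toZMod_V, if_neg h]

theorem not_dvd_V {s : ℕ} (h : (p - 1) ∣ s) : ¬ (p : ℤ_[p]) ∣ V p s := by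
  rw [dvd_iff_toZMod, toZMod_V, if_pos h]
  exact neg_ne_zero.mpr one_ne_zero

/-- reflection: `v (p - j) = - v j - p v j ^ 2 + p ^ 2 (...)` -/
theorem v_reflect {j : ℕ} (h : j ∈ Ico 1 p) :
    v p (p - j) = -v p j - p * v p j ^ 2 + (p : ℤ_[p]) ^ 2 * (v p j ^ 2 * v p (p - j)) := by
  have hj := mul_v_of_mem h
  rw [mem_Ico] at h
  have hj' : (p - j) ∈ Ico 1 p := by rw [mem_Ico]; omega
  have h2 := mul_v_of_mem hj'
  rw [Nat.cast_sub h.2.le] at h2
  set w := v p (p - j)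
  set x := v p j
  -- (p - j) w = 1, j x = 1
  have h3 : w = -x + p * x * w := by
    have : x * ((p - j) * w) = x := by rw [h2, mul_one]
    linear_combination (-w) * hj - this
  linear_combination (1 + p * x) * h3

theorem V_reflect (s : ℕ) : V p s = ∑ j ∈ Ico 1 p, v p (p - j) ^ s := by
  rw [V]
  refine sum_nbij' (fun j => p - j) (fun j => p - j) ?_ ?_ ?_ ?_ ?_
  · intro j hj; rw [mem_Ico] at hj ⊢; omega
  · intro j hj; rw [mem_Ico] at hj ⊢; omega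
  · intro j hj; rw [mem_Ico] at hj; show p - (p - j) = j; omega
  · intro j hj; rw [mem_Ico] at hj; show p - (p - j) = j; omega
  · intro j hj; rw [mem_Ico] at hj
    show v p j ^ s = v p (p - (p - j)) ^ s
    rw [show p - (p - j) = j by omega]

/-- for odd `s`: `2 V s + s p V (s+1)` is divisible by `p ^ 2` -/
theorem V_odd {s : ℕ} (hs : Odd s) :
    (p : ℤ_[p]) ^ 2 ∣ 2 * V p s + s * p * V p (s + 1) := by
  have key : ∀ j ∈ Ico 1 p, (p : ℤ_[p]) ^ 2 ∣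
      v p (p - j) ^ s + v p j ^ s + s * p * v p j ^ (s + 1) := by
    intro j hj
    have h1 := v_reflect hj
    set x := v p j
    set w := v p (p - j)
    -- w ≡ -x (1 + p x)
    have h2 : (p : ℤ_[p]) ^ 2 ∣ w - (-(x + p * x ^ 2)) := ⟨x ^ 2 * w, by linear_combination h1⟩
    have h3 : (p : ℤ_[p]) ^ 2 ∣ w ^ s - (-(x + p * x ^ 2)) ^ s :=
      h2.trans (sub_dvd_pow_sub_pow _ _ _)
    have h4 : (-(x + p * x ^ 2)) ^ s = -((x + p * x ^ 2) ^ s) := hs.neg_pow _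
    -- (x + p x^2)^s ≡ x^s + s x^(s-1) p x^2
    have h5 : (p : ℤ_[p]) ^ 2 ∣ (x + p * x ^ 2) ^ s - (x ^ s + s * p * x ^ (s + 1)) := by
      obtain ⟨k, hk⟩ := (Polynomial.powAddExpansion x (p * x ^ 2) s)
      rw [hk]
      obtain ⟨t, rfl⟩ := hs
      refine ⟨k * x ^ 4, ?_⟩
      have : 2 * t + 1 - 1 = 2 * t := by omega
      rw [this]
      ring
    have h6 : v p (p - j) ^ s + v p j ^ s + s * p * v p j ^ (s + 1) =
        (w ^ s - (-(x + p * x ^ 2)) ^ s) - ((x + p * x ^ 2) ^ s - (x ^ s + s * p * x ^ (s + 1))) := by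
      rw [h4]; ring
    rw [h6]
    exact dvd_sub h3 h5
  have h := dvd_sum key
  rw [sum_add_distrib, sum_add_distrib, ← V_reflect, ← mul_sum] at h
  have e : 2 * V p s + s * p * V p (s + 1) = V p s + V p s + s * p * V p (s + 1) := by ring
  rw [e]
  exact h

end Q33.Harm
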