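import Pool.Agent.Q33.Harm.Basic

/-!
The binomial coefficients `C(p-1,j)`, `C(p,j)`, `C(p+j-1,j)` in `ℤ_[p]`.
-/

namespace Q33.Harm

open Finset

variable {p : ℕ} [hp : Fact p.Prime]

/-- `∏_{i<j} (1 - p/i)` -/
noncomputable def A (p : ℕ) [Fact p.Prime] (j : ℕ) : ℤ_[p] := ∏ i ∈ Ico 1 j, (1 - p * v p i)

/-- `∏_{i<j} (1 + p/i)` -/
noncomputable def B (p : ℕ) [Fact p.Prime] (j : ℕ) : ℤ_[p] := ∏ i ∈ Ico 1 j, (1 + p * v p i)

theorem A_succ {j : ℕ} (h : 1 ≤ j) : A p (j + 1) = A p j * (1 - p * v p j) := by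
  rw [A, prod_Ico_succ_top h, A]

theorem B_succ {j : ℕ} (h : 1 ≤ j) : B p (j + 1) = B p j * (1 + p * v p j) := by
  rw [B, prod_Ico_succ_top h, B]

/-- `C(p-1, j) = (-1)^j ∏_{i ≤ j} (1 - p/i)` -/
theorem choose_pred : ∀ j : ℕ, j < p →
    (((p - 1).choose j : ℕ) : ℤ_[p]) = (-1) ^ j * A p (j + 1) := by
  intro j
  induction j with
  | zero => intro _; simp [A]
  | succ j ih =>
    intro hj
    have ih' := ih (by omega)
    have hm := mul_v_of_mem (p := p) (j := j + 1) (by rw [mem_Ico]; omega)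
    have h1 := Nat.choose_succ_right_eq (p - 1) j
    have h2 : (((p - 1).choose (j + 1) : ℕ) : ℤ_[p]) * ((j + 1 : ℕ) : ℤ_[p]) =
        (((p - 1).choose j : ℕ) : ℤ_[p]) * ((p : ℤ_[p]) - ((j + 1 : ℕ) : ℤ_[p])) := by
      have h3 : ((p - 1 - j : ℕ) : ℤ_[p]) = (p : ℤ_[p]) - ((j + 1 : ℕ) : ℤ_[p]) := by
        rw [← Nat.cast_sub hj.le]
        congr 1
        omega
      rw [← h3]
      exact_mod_cast congrArg (fun n : ℕ => (n : ℤ_[p])) h1
    rw [A_succ (by omega : 1 ≤ j + 1), pow_succ]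
    rw [ih'] at h2
    set x := v p (j + 1)
    linear_combination x * h2 - ((((p - 1).choose (j + 1) : ℕ) : ℤ_[p])
      + (-1) ^ j * A p (j + 1)) * hm

/-- `C(p, j) = (p/j) C(p-1, j-1)` -/
theorem choose_p {j : ℕ} (h : j ∈ Ico 1 p) :
    ((p.choose j : ℕ) : ℤ_[p]) = p * v p j * ((-1) ^ (j - 1) * A p j) := by
  have hm := mul_v_of_mem h
  rw [mem_Ico] at h
  have h1 := choose_pred (p := p) (j - 1) (by omega)
  rw [show j - 1 + 1 = j by omega] at h1
  rw [← h1]
  have h2 : p * (p - 1).choose (j - 1) = p.choose j * j := by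
    have h3 := Nat.add_one_mul_choose_eq (p - 1) (j - 1)
    rw [show p - 1 + 1 = p by omega, show j - 1 + 1 = j by omega] at h3
    exact h3
  have h4 : (p : ℤ_[p]) * (((p - 1).choose (j - 1) : ℕ) : ℤ_[p]) =
      ((p.choose j : ℕ) : ℤ_[p]) * (j : ℤ_[p]) := by exact_mod_cast congrArg (fun n : ℕ => (n : ℤ_[p])) h2
  linear_combination (-v p j) * h4 - ((p.choose j : ℕ) : ℤ_[p]) * hm

/-- `C(p+j-1, j) = (p/j) ∏_{i<j} (1 + p/i)` -/
theorem choose_add : ∀ j : ℕ, 1 ≤ j → j < p →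
    (((p + j - 1).choose j : ℕ) : ℤ_[p]) = p * v p j * B p j := by
  intro j hj
  induction j, hj using Nat.le_induction with
  | base =>
    intro hj
    have hm := mul_v_of_mem (p := p) (j := 1) (by rw [mem_Ico]; omega)
    have : v p 1 = 1 := by rw [Nat.cast_one, one_mul] at hm; exact hm
    rw [this, B]
    simp
  | succ j hj ih =>
    intro hj'
    have ih' := ih (by omega)
    have hm := mul_v_of_mem (p := p) (j := j + 1) (by rw [mem_Ico]; omega)
    have hm' := mul_v_of_mem (p := p) (j := j) (by rw [mem_Ico]; omega)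
    have h1 : (p + (j + 1) - 1).choose (j + 1) * (j + 1) = (p + j) * (p + j - 1).choose j := by
      have h3 := Nat.add_one_mul_choose_eq (p + j - 1) j
      rw [show p + j - 1 + 1 = p + j by omega] at h3
      rw [show p + (j + 1) - 1 = p + j by omega]
      exact h3.symm
    have h4 : (((p + (j + 1) - 1).choose (j + 1) : ℕ) : ℤ_[p]) * ((j + 1 : ℕ) : ℤ_[p]) =
        ((p : ℤ_[p]) + (j : ℤ_[p])) * (((p + j - 1).choose j : ℕ) : ℤ_[p]) := by
      exact_mod_cast congrArg (fun n : ℕ => (n : ℤ_[p])) h1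
    rw [ih'] at h4
    rw [B_succ hj]
    linear_combination v p (j + 1) * h4 - (((p + (j + 1) - 1).choose (j + 1) : ℕ) : ℤ_[p]) * hm +
      v p (j + 1) * p * B p j * hm'

/-- `∏_{i<j} (1 - p²/i²)² = 1 + p² (...)` -/
theorem AB_sq (j : ℕ) : (p : ℤ_[p]) ^ 2 ∣ (A p j * B p j) ^ 2 - 1 := by
  have h1 : (p : ℤ_[p]) ^ 2 ∣ A p j * B p j - 1 := by
    rw [A, B, ← prod_mul_distrib]
    have : ∀ s : Finset ℕ, (p : ℤ_[p]) ^ 2 ∣ (∏ i ∈ s, (1 - p * v p i) * (1 + p * v p i)) - 1 := by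
      intro s
      induction s using Finset.induction_on with
      | empty => simp
      | insert a s ha ih =>
        rw [prod_insert ha]
        obtain ⟨k, hk⟩ := ih
        refine ⟨k * ((1 - p * v p a) * (1 + p * v p a)) - v p a ^ 2, ?_⟩
        linear_combination ((1 - p * v p a) * (1 + p * v p a)) * hk
    exact this _
  have h2 : (A p j * B p j) ^ 2 - 1 = (A p j * B p j - 1) * (A p j * B p j + 1) := by ring
  rw [h2]
  exact Dvd.dvd.mul_right h1 _

end Q33.Harm
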