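import Pool.Agent.Q33.Harm.Shift

/-!
The congruence of Jacobsthal and Kazandzidis for `C(pn, pi)`, in the form needed for cubes.
-/

namespace Q33.Harm

open Finset

variable {p : ℕ} [hp : Fact p.Prime]

theorem choose_prod (m N : ℕ) :
    ((Nat.choose (p * m + N) N : ℕ) : ℤ_[p]) =
      (Nat.choose (m + N / p) (N / p) : ℕ) * ∏ j ∈ range (N + 1), (1 + p * m * v p j) := by
  have hp0 : 0 < p := hp.out.pos
  induction N with
  | zero =>
    simp [v_of_dvd (dvd_zero p)]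
  | succ N ih =>
    have h1 : (N + 1) * Nat.choose (p * m + (N + 1)) (N + 1) =
        (p * m + (N + 1)) * Nat.choose (p * m + N) N := by
      have := Nat.add_one_mul_choose_eq (p * m + N) N
      rw [show p * m + (N + 1) = p * m + N + 1 by ring]
      linarith
    have h1' := congrArg (Nat.cast : ℕ → ℤ_[p]) h1
    push_cast at h1'
    rw [prod_range_succ]
    by_cases hd : p ∣ N + 1
    · obtain ⟨i', hi'⟩ := hd
      obtain ⟨i, rfl⟩ : ∃ i, i' = i + 1 := by
        rcases i' with _ | i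
        · simp at hi'
        · exact ⟨i, rfl⟩
      have e1 : (N + 1) / p = i + 1 := by
        rw [hi']; exact Nat.mul_div_cancel_left _ hp0
      have e2 : N / p = i := by
        have hN : N = p * i + (p - 1) := by
          rw [mul_add, mul_one] at hi'
          omega
        rw [hN, Nat.mul_add_div hp0, Nat.div_eq_of_lt (by omega)]
        rfl
      rw [e1]
      rw [e2] at ih
      rw [v_of_dvd ⟨i + 1, hi'⟩, mul_zero, add_zero, mul_one]
      have h2 : (i + 1) * Nat.choose (m + (i + 1)) (i + 1) = (m + (i + 1)) * Nat.choose (m + i) i := by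
        have := Nat.add_one_mul_choose_eq (m + i) i
        rw [show m + (i + 1) = m + i + 1 by ring]
        linarith
      have h2' := congrArg (Nat.cast : ℕ → ℤ_[p]) h2
      push_cast at h2'
      have hN' := congrArg (Nat.cast : ℕ → ℤ_[p]) hi'
      push_cast at hN'
      have hpz : (p : ℤ_[p]) ≠ 0 := by exact_mod_cast hp0.ne'
      have hiz : ((i : ℤ_[p]) + 1) ≠ 0 := by exact_mod_cast (Nat.succ_ne_zero i)
      apply mul_left_cancel₀ (mul_ne_zero hpz hiz)
      rw [ih] at h1'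
      linear_combination h1' + (p : ℤ_[p]) * (∏ j ∈ range (N + 1), (1 + p * m * v p j)) * (-h2') +
        (((Nat.choose (m + i) i : ℕ) : ℤ_[p]) * ∏ j ∈ range (N + 1), (1 + p * m * v p j) -
          ((Nat.choose (p * m + (N + 1)) (N + 1) : ℕ) : ℤ_[p])) * hN'
    · have e1 : (N + 1) / p = N / p := by
        rw [Nat.succ_div, if_neg hd, add_zero]
      rw [e1, ← mul_assoc, ← ih]
      have hu := isUnit_nat (p := p) hd
      have hmv := mul_v (p := p) hd
      apply hu.mul_left_cancel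
      push_cast at hmv ⊢
      linear_combination h1' - (Nat.choose (p * m + N) N : ℤ_[p]) * p * m * hmv

theorem prod_one_add (s : Finset ℕ) (c : ℤ_[p]) (y : ℕ → ℤ_[p]) :
    c ^ 2 ∣ ∏ j ∈ s, (1 + c * y j) - (1 + c * ∑ j ∈ s, y j) := by
  classical
  induction s using Finset.induction_on with
  | empty => simp
  | insert a s ha ih =>
    obtain ⟨k, hk⟩ := ih
    rw [prod_insert ha, sum_insert ha]
    refine ⟨k * (1 + c * y a) + y a * ∑ j ∈ s, y j, ?_⟩
    linear_combination (1 + c * y a) * hk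

theorem rho (h5 : 5 ≤ p) (g m i : ℕ) (hm : p ^ g ∣ m) (hi : p ^ g ∣ i) :
    (p : ℤ_[p]) ^ (3 + 3 * g) ∣ ∏ j ∈ range (p * i + 1), (1 + p * m * v p j) - 1 := by
  set ρ := ∏ j ∈ range (p * i + 1), (1 + (p : ℤ_[p]) * m * v p j) with hρ
  set c : ℤ_[p] := (p : ℤ_[p]) ^ 2 * m * (m + i) with hc
  have hsq : ρ ^ 2 = ∏ j ∈ range (p * i + 1), (1 + c * (v p j * v p (p * i - j))) := by
    have href : ρ = ∏ j ∈ range (p * i + 1), (1 + (p : ℤ_[p]) * m * v p (p * i - j)) := by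
      rw [hρ, ← prod_range_reflect]
      refine prod_congr rfl fun j hj => ?_
      rw [show p * i + 1 - 1 - j = p * i - j by omega]
    rw [sq]
    conv_lhs => rw [href]; enter [1]; rw [← href, hρ]
    rw [← prod_mul_distrib]
    refine prod_congr rfl fun j hj => ?_
    by_cases hd : p ∣ j
    · have h2 : p ∣ p * i - j := (Nat.dvd_sub (dvd_mul_right p i) hd)
      rw [v_of_dvd hd, v_of_dvd h2]; ring
    · have hj' : j ≤ p * i := by rw [mem_range] at hj; omega
      have h2 : ¬ p ∣ p * i - j := by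
        intro h
        apply hd
        have := (Nat.dvd_sub (dvd_mul_right p i) h)
        rwa [Nat.sub_sub_self hj'] at this
      have e1 := mul_v (p := p) hd
      have e2 := mul_v (p := p) h2
      rw [Nat.cast_sub hj', Nat.cast_mul] at e2
      rw [hc]
      linear_combination (p : ℤ_[p]) * m * (-v p (p * i - j) * e1 - v p j * e2)
  have hpg : (p : ℤ_[p]) ^ (1 + g) ∣ ∑ j ∈ range (p * i + 1), v p j * v p (p * i - j) := by
    have hterm : ∀ j ∈ range (p * i + 1), v p j * v p (p * i - j) =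
        - v p j ^ 2 + p * i * (v p j ^ 2 * v p (p * i - j)) := by
      intro j hj
      by_cases hd : p ∣ j
      · rw [v_of_dvd hd]; ring
      · have hj' : j ≤ p * i := by rw [mem_range] at hj; omega
        have h2 : ¬ p ∣ p * i - j := by
          intro h
          apply hd
          have := (Nat.dvd_sub (dvd_mul_right p i) h)
          rwa [Nat.sub_sub_self hj'] at this
        have e1 := mul_v (p := p) hd
        have e2 := mul_v (p := p) h2
        rw [Nat.cast_sub hj', Nat.cast_mul] at e2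
        linear_combination (-v p j ^ 2 * e2 - v p j * v p (p * i - j) * e1)
    rw [sum_congr rfl hterm, sum_add_distrib, ← mul_sum]
    have hpi : (p : ℤ_[p]) ^ (1 + g) ∣ p * i := by
      rw [pow_add, pow_one]
      refine mul_dvd_mul_left _ ?_
      exact_mod_cast (Nat.cast_dvd_cast hi : ((p ^ g : ℕ) : ℤ_[p]) ∣ (i : ℕ))
    refine dvd_add ?_ (hpi.mul_right _)
    rw [sum_neg_distrib]
    apply (dvd_neg).2
    rw [sum_range_succ, v_of_dvd (dvd_mul_right p i), zero_pow two_ne_zero, add_zero]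
    obtain ⟨i', rfl⟩ := hi
    have h1 := W_period (p := p) 2 (M := p ^ (1 + g)) (dvd_pow_self p (by omega)) i'
    have h2 := pow_dvd_W_two (p := p) h5 (1 + g) (by omega)
    have h3 : p * (p ^ g * i') = i' * p ^ (1 + g) := by ring
    rw [h3]
    change (p : ℤ_[p]) ^ (1 + g) ∣ W p 2 (i' * p ^ (1 + g))
    push_cast at h1
    have h4 := dvd_add h1 (h2.mul_left (i' : ℤ_[p]))
    rwa [sub_add_cancel] at h4
  have hcd : (p : ℤ_[p]) ^ (2 + 2 * g) ∣ c := by
    rw [hc]
    have h1 : (p : ℤ_[p]) ^ g ∣ m := by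
      exact_mod_cast (Nat.cast_dvd_cast hm : ((p ^ g : ℕ) : ℤ_[p]) ∣ (m : ℕ))
    have h2 : (p : ℤ_[p]) ^ g ∣ m + i := by
      have : (p : ℤ_[p]) ^ g ∣ i := by
        exact_mod_cast (Nat.cast_dvd_cast hi : ((p ^ g : ℕ) : ℤ_[p]) ∣ (i : ℕ))
      exact dvd_add h1 this
    have : (p : ℤ_[p]) ^ (2 + 2 * g) = p ^ 2 * p ^ g * p ^ g := by ring
    rw [this]
    exact mul_dvd_mul (mul_dvd_mul_left _ h1) h2
  have h6 : (p : ℤ_[p]) ^ (3 + 3 * g) ∣ ρ ^ 2 - 1 := by
    have h7 := prod_one_add (p := p) (range (p * i + 1)) c (fun j => v p j * v p (p * i - j))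
    rw [← hsq] at h7
    have h8 : (p : ℤ_[p]) ^ (3 + 3 * g) ∣ c ^ 2 := by
      have : (p : ℤ_[p]) ^ (3 + 3 * g) ∣ ((p : ℤ_[p]) ^ (2 + 2 * g)) ^ 2 := by
        rw [← pow_mul]; exact pow_dvd_pow _ (by omega)
      exact this.trans (pow_dvd_pow_of_dvd hcd 2)
    have h9 : (p : ℤ_[p]) ^ (3 + 3 * g) ∣
        c * ∑ j ∈ range (p * i + 1), v p j * v p (p * i - j) := by
      have : (p : ℤ_[p]) ^ (3 + 3 * g) = p ^ (2 + 2 * g) * p ^ (1 + g) := by ring
      rw [this]
      exact mul_dvd_mul hcd hpg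
    have h10 := dvd_add (h8.trans h7) h9
    convert h10 using 1
    ring
  -- `ρ ≡ 1` modulo `p`
  have hρ1 : (p : ℤ_[p]) ∣ ρ - 1 := by
    have h7 := prod_one_add (p := p) (range (p * i + 1)) (p : ℤ_[p]) (fun j => m * v p j)
    have h8 : ∏ j ∈ range (p * i + 1), (1 + (p : ℤ_[p]) * (m * v p j)) = ρ := by
      rw [hρ]; exact prod_congr rfl fun j _ => by ring
    rw [h8] at h7
    have h9 : (p : ℤ_[p]) ∣ ρ - (1 + p * ∑ j ∈ range (p * i + 1), (m * v p j)) :=
      (dvd_pow_self _ two_ne_zero).trans h7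
    have h10 := dvd_add h9 (dvd_mul_right (p : ℤ_[p]) (∑ j ∈ range (p * i + 1), (m * v p j)))
    convert h10 using 1
    ring
  have hu : IsUnit (ρ + 1) := by
    have h2 : ¬ p ∣ 2 := fun h => by
      have := Nat.le_of_dvd (by norm_num) h
      omega
    have h2u : IsUnit (2 : ℤ_[p]) := by exact_mod_cast isUnit_nat (p := p) h2
    by_contra hnu
    have : ρ + 1 ∈ nonunits ℤ_[p] := hnu
    rw [PadicInt.mem_nonunits, PadicInt.norm_lt_one_iff_dvd] at this
    have h3 : (p : ℤ_[p]) ∣ 2 := by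
      have := dvd_sub this hρ1
      convert this using 1
      ring
    have h4 : (2 : ℤ_[p]) ∈ nonunits ℤ_[p] := by
      rw [PadicInt.mem_nonunits, PadicInt.norm_lt_one_iff_dvd]; exact h3
    exact h4 h2u
  have h11 : ρ ^ 2 - 1 = (ρ - 1) * (ρ + 1) := by ring
  rw [h11] at h6
  exact (hu.dvd_mul_right).1 h6

theorem dvd_choose_of (e g n i : ℕ) (hge : g ≤ e) (hn : p ^ e ∣ n) (hi0 : 0 < i) (hi : i ≤ n)
    (hg : ∃ i', i = p ^ g * i' ∧ (g = e ∨ ¬ p ∣ i')) : p ^ (e - g) ∣ Nat.choose n i := by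
  obtain ⟨i', rfl, hgi⟩ := hg
  rcases hgi with rfl | hgi
  · simp
  · obtain ⟨n', rfl⟩ := hn
    obtain ⟨N, hN⟩ : ∃ N, p ^ e * n' = N + 1 := ⟨p ^ e * n' - 1, by omega⟩
    obtain ⟨I, hI⟩ : ∃ I, p ^ g * i' = I + 1 := ⟨p ^ g * i' - 1, by omega⟩
    have h1 := Nat.add_one_mul_choose_eq N I
    rw [← hN, ← hI] at h1
    have h2 : p ^ e = p ^ g * p ^ (e - g) := by rw [← pow_add]; congr 1; omega
    have h3 : p ^ g * (p ^ (e - g) * (n' * Nat.choose N I)) =
        p ^ g * (i' * Nat.choose (p ^ e * n') (p ^ g * i')) := by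
      calc p ^ g * (p ^ (e - g) * (n' * Nat.choose N I))
          = (p ^ g * p ^ (e - g)) * n' * Nat.choose N I := by ring
        _ = p ^ e * n' * Nat.choose N I := by rw [← h2]
        _ = Nat.choose (p ^ e * n') (p ^ g * i') * (p ^ g * i') := h1
        _ = _ := by ring
    have h4 := Nat.eq_of_mul_eq_mul_left (Nat.pow_pos hp.out.pos) h3
    have h5 : p ^ (e - g) ∣ i' * Nat.choose (p ^ e * n') (p ^ g * i') := ⟨_, h4.symm⟩
    exact (Nat.Coprime.dvd_mul_left
      (Nat.Coprime.pow_left _ ((Nat.Prime.coprime_iff_not_dvd hp.out).2 hgi))).1 h5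

theorem cube_congr (h5 : 5 ≤ p) (e n i : ℕ) (hn : p ^ e ∣ n) (hi : i ≤ n) :
    (p : ℤ) ^ (3 + 3 * e) ∣ (Nat.choose (p * n) (p * i) : ℤ) ^ 3 - (Nat.choose n i : ℤ) ^ 3 := by
  rcases Nat.eq_zero_or_pos i with rfl | hi0
  · simp
  -- the exponent `g = min (e, v(i))`
  obtain ⟨f, i', hi', hii⟩ := Nat.exists_eq_pow_mul_and_not_dvd hi0.ne' p hp.out.ne_one
  obtain ⟨g, hge, hg⟩ : ∃ g, g ≤ e ∧ ∃ i'', i = p ^ g * i'' ∧ (g = e ∨ ¬ p ∣ i'') := by
    rcases le_total e f with hef | hef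
    · refine ⟨e, le_rfl, p ^ (f - e) * i', ?_, Or.inl rfl⟩
      rw [← mul_assoc, ← pow_add, hii]; congr 2; omega
    · exact ⟨f, hef, i', hii, Or.inr hi'⟩
  have hd := dvd_choose_of e g n i hge hn hi0 hi hg
  obtain ⟨m, rfl⟩ : ∃ m, n = m + i := ⟨n - i, by omega⟩
  have hgi : p ^ g ∣ i := by obtain ⟨i'', h, _⟩ := hg; exact ⟨i'', h⟩
  have hgm : p ^ g ∣ m := by
    have h1 : p ^ g ∣ m + i := (pow_dvd_pow p hge).trans hn
    exact (Nat.dvd_add_left hgi).1 h1
  have hρ := rho h5 g m i hgm hgi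
  have h1 := choose_prod (p := p) m (p * i)
  rw [Nat.mul_div_cancel_left _ hp.out.pos] at h1
  set ρ := ∏ j ∈ range (p * i + 1), (1 + (p : ℤ_[p]) * m * v p j) with hρd
  have e0 : (p : ℤ) ^ (3 + 3 * e) = ((p ^ (3 + 3 * e) : ℕ) : ℤ) := by push_cast; ring
  rw [← PadicInt.pow_p_dvd_int_iff]
  push_cast
  rw [show p * (m + i) = p * m + p * i by ring, h1]
  obtain ⟨a, ha⟩ := hd
  rw [ha]
  push_cast
  have h2 : (p : ℤ_[p]) ^ (3 + 3 * g) ∣ ρ ^ 3 - 1 := by
    have : ρ ^ 3 - 1 = (ρ - 1) * (ρ ^ 2 + ρ + 1) := by ring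
    rw [this]; exact hρ.mul_right _
  have h3 : (p : ℤ_[p]) ^ (3 + 3 * e) = (p ^ (e - g)) ^ 3 * p ^ (3 + 3 * g) := by
    rw [← pow_mul, ← pow_add]; congr 1; omega
  rw [h3]
  have h4 : ((p : ℤ_[p]) ^ (e - g) * a * ρ) ^ 3 - (p ^ (e - g) * a) ^ 3 =
      (p ^ (e - g)) ^ 3 * ((ρ ^ 3 - 1) * a ^ 3) := by ring
  rw [h4]
  exact mul_dvd_mul_left _ (h2.mul_right _)

end Q33.Harm
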