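import Pool.Agent.Q33.Harm.Basic

/-!
Power sums of the inverses of the integers below `N` that are prime to `p`.
-/

namespace Q33.Harm

open Finset

variable {p : ℕ} [hp : Fact p.Prime]

theorem v_of_dvd {j : ℕ} (h : p ∣ j) : v p j = 0 := by
  rw [v]
  apply Ring.inverse_non_unit
  rw [PadicInt.isUnit_iff, PadicInt.norm_natCast_eq_one_iff]
  intro h2
  exact ((Nat.Prime.coprime_iff_not_dvd hp.out).mp h2) h

/-- the sum of `v j ^ s` over `j < N` -/
noncomputable def W (p : ℕ) [Fact p.Prime] (s N : ℕ) : ℤ_[p] := ∑ j ∈ range N, v p j ^ s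

theorem W_p {s : ℕ} (hs : s ≠ 0) : W p s p = V p s := by
  rw [W, V, range_eq_Ico, sum_eq_sum_Ico_succ_bot hp.out.pos, v_of_dvd (dvd_zero p), zero_pow hs,
    zero_add]

/-- `v (tM + l) = v l - t M v l ^ 2 + M ^ 2 (...)` -/
theorem v_shift {M : ℕ} (hM : p ∣ M) (t l : ℕ) :
    (M : ℤ_[p]) ^ 2 ∣ v p (t * M + l) - (v p l - t * M * v p l ^ 2) := by
  by_cases h : p ∣ l
  · rw [v_of_dvd h, v_of_dvd (dvd_add (Dvd.dvd.mul_left hM t) h)]
    simp
  · have h2 : ¬ p ∣ t * M + l := fun h3 => h ((Nat.dvd_add_right (Dvd.dvd.mul_left hM t)).mp h3)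
    have e1 := mul_v h
    have e2 := mul_v h2
    push_cast at e2
    set x := v p l
    set w := v p (t * M + l)
    have e3 : w = x - t * M * x * w := by linear_combination (-w) * e1 + x * e2
    refine ⟨t ^ 2 * x ^ 2 * w, ?_⟩
    linear_combination (1 - t * M * x) * e3

theorem v_shift_one {M : ℕ} (hM : p ∣ M) (t l : ℕ) :
    (M : ℤ_[p]) ∣ v p (t * M + l) - v p l := by
  obtain ⟨k, hk⟩ := v_shift hM t l
  exact ⟨M * k - t * v p l ^ 2, by linear_combination hk⟩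

theorem sum_range_mul (f : ℕ → ℤ_[p]) (M m : ℕ) :
    ∑ j ∈ range (m * M), f j = ∑ t ∈ range m, ∑ l ∈ range M, f (t * M + l) := by
  induction m with
  | zero => simp
  | succ m ih =>
    rw [sum_range_succ, ← ih, add_mul, one_mul, sum_range_add_sub_sum_range' f (m * M) M]
where
  sum_range_add_sub_sum_range' (f : ℕ → ℤ_[p]) (a b : ℕ) :
      ∑ j ∈ range (a + b), f j = ∑ j ∈ range a, f j + ∑ l ∈ range b, f (a + l) := by
    induction b with
    | zero => simp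
    | succ b ih => rw [← add_assoc, sum_range_succ, ih, sum_range_succ, add_assoc]

theorem W_period (s : ℕ) {M : ℕ} (hM : p ∣ M) (m : ℕ) :
    (M : ℤ_[p]) ∣ W p s (m * M) - m * W p s M := by
  have h1 : W p s (m * M) - m * W p s M =
      ∑ t ∈ range m, ∑ l ∈ range M, (v p (t * M + l) ^ s - v p l ^ s) := by
    rw [W, sum_range_mul]
    simp only [sum_sub_distrib]
    rw [sum_const, card_range, nsmul_eq_mul, W]
  rw [h1]
  exact dvd_sum fun t _ => dvd_sum fun l _ => (v_shift_one hM t l).trans (sub_dvd_pow_sub_pow _ _ _)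

theorem dvd_W {s : ℕ} (hs0 : s ≠ 0) (hs : ¬ (p - 1) ∣ s) (m : ℕ) : (p : ℤ_[p]) ∣ W p s (m * p) := by
  have h1 := W_period (p := p) s (dvd_refl p) m
  rw [W_p hs0] at h1
  have h2 := dvd_add h1 (Dvd.dvd.mul_left (dvd_V hs) (m : ℤ_[p]))
  rwa [sub_add_cancel] at h2

theorem dvd_W' {s : ℕ} {m : ℕ} (hm : p ∣ m) : (p : ℤ_[p]) ∣ W p s (m * p) := by
  have h1 := W_period (p := p) s (dvd_refl p) m
  have h3 : (p : ℤ_[p]) ∣ (m : ℤ_[p]) := by
    obtain ⟨k, rfl⟩ := hm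
    exact ⟨k, by push_cast; ring⟩
  have h2 := dvd_add h1 (Dvd.dvd.mul_right h3 (W p s p))
  rwa [sub_add_cancel] at h2

/-- more precise form for the squares -/
theorem W_two_shift {M : ℕ} (hM : p ∣ M) (m : ℕ) (h3 : (p : ℤ_[p]) ∣ W p 3 M) :
    (p : ℤ_[p]) * M ∣ W p 2 (m * M) - m * W p 2 M := by
  have h1 : W p 2 (m * M) - m * W p 2 M =
      ∑ t ∈ range m, ∑ l ∈ range M, (v p (t * M + l) ^ 2 - v p l ^ 2 + 2 * t * M * v p l ^ 3) -
        2 * (∑ t ∈ range m, (t : ℤ_[p])) * M * W p 3 M := by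
    have e : ∀ t ∈ range m, ∑ l ∈ range M,
        (v p (t * M + l) ^ 2 - v p l ^ 2 + 2 * t * M * v p l ^ 3) =
        ∑ l ∈ range M, v p (t * M + l) ^ 2 - W p 2 M + 2 * M * W p 3 M * t := by
      intro t _
      rw [sum_add_distrib, sum_sub_distrib, ← mul_sum, W, W]
      ring
    have e0 := sum_range_mul (fun j => v p j ^ 2) M m
    rw [sum_congr rfl e, sum_add_distrib, sum_sub_distrib, ← mul_sum, ← e0, sum_const,
      card_range, nsmul_eq_mul, show W p 2 (m * M) = ∑ j ∈ range (m * M), v p j ^ 2 from rfl]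
    ring
  rw [h1]
  have hpM : (p : ℤ_[p]) * M ∣ (M : ℤ_[p]) ^ 2 := by
    obtain ⟨k, rfl⟩ := hM
    exact ⟨k, by push_cast; ring⟩
  refine dvd_sub (dvd_sum fun t _ => dvd_sum fun l _ => ?_) ?_
  · obtain ⟨k, hk⟩ := v_shift hM t l
    refine hpM.trans ⟨k * (v p (t * M + l) + v p l - t * M * v p l ^ 2) + t ^ 2 * v p l ^ 4, ?_⟩
    linear_combination (v p (t * M + l) + v p l - t * M * v p l ^ 2) * hk
  · obtain ⟨k, hk⟩ := h3
    exact ⟨2 * (∑ t ∈ range m, (t : ℤ_[p])) * k, by rw [hk]; ring⟩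

/-- reflection -/
theorem W_reflect {M : ℕ} (hM : p ∣ M) (hM0 : 0 < M) {s : ℕ} (hs : Odd s) :
    (M : ℤ_[p]) ^ 2 ∣ 2 * W p s M + s * M * W p (s + 1) M := by
  have hs0 : s ≠ 0 := by rintro rfl; exact absurd hs (by decide)
  have h1 : W p s M = ∑ j ∈ range M, v p (M - j) ^ s := by
    rw [W, range_eq_Ico, sum_eq_sum_Ico_succ_bot hM0, sum_eq_sum_Ico_succ_bot hM0,
      v_of_dvd (dvd_zero p), Nat.sub_zero, v_of_dvd hM]
    congr 1
    refine sum_nbij' (fun j => M - j) (fun j => M - j) ?_ ?_ ?_ ?_ ?_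
    · intro j hj; rw [mem_Ico] at hj ⊢; omega
    · intro j hj; rw [mem_Ico] at hj ⊢; omega
    · intro j hj; rw [mem_Ico] at hj; show M - (M - j) = j; omega
    · intro j hj; rw [mem_Ico] at hj; show M - (M - j) = j; omega
    · intro j hj; rw [mem_Ico] at hj
      show v p j ^ s = v p (M - (M - j)) ^ s
      rw [show M - (M - j) = j by omega]
  have key : ∀ j ∈ range M, (M : ℤ_[p]) ^ 2 ∣
      v p (M - j) ^ s + v p j ^ s + s * M * v p j ^ (s + 1) := by
    intro j hj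
    rw [mem_range] at hj
    by_cases h : p ∣ j
    · rw [v_of_dvd h, v_of_dvd (Nat.dvd_sub hM h), zero_pow hs0, zero_pow (by omega)]
      simp
    · have h2 : ¬ p ∣ M - j := fun h3 => h (by
        have := Nat.dvd_sub hM h3
        rwa [Nat.sub_sub_self hj.le] at this)
      have e1 := mul_v h
      have e2 := mul_v h2
      rw [Nat.cast_sub hj.le] at e2
      set x := v p j
      set w := v p (M - j)
      have e3 : w = -x + M * x * w := by linear_combination (-w) * e1 - x * e2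
      have h2 : (M : ℤ_[p]) ^ 2 ∣ w - (-(x + M * x ^ 2)) :=
        ⟨x ^ 2 * w, by linear_combination (1 + M * x) * e3⟩
      have h3 : (M : ℤ_[p]) ^ 2 ∣ w ^ s - (-(x + M * x ^ 2)) ^ s :=
        h2.trans (sub_dvd_pow_sub_pow _ _ _)
      have h4 : (-(x + M * x ^ 2)) ^ s = -((x + M * x ^ 2) ^ s) := hs.neg_pow _
      have h5 : (M : ℤ_[p]) ^ 2 ∣ (x + M * x ^ 2) ^ s - (x ^ s + s * M * x ^ (s + 1)) := by
        obtain ⟨k, hk⟩ := (Polynomial.powAddExpansion x (M * x ^ 2) s)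
        rw [hk]
        obtain ⟨t, rfl⟩ := hs
        refine ⟨k * x ^ 4, ?_⟩
        have : 2 * t + 1 - 1 = 2 * t := by omega
        rw [this]
        ring
      have h6 : v p (M - j) ^ s + v p j ^ s + s * M * v p j ^ (s + 1) =
          (w ^ s - (-(x + M * x ^ 2)) ^ s) - ((x + M * x ^ 2) ^ s - (x ^ s + s * M * x ^ (s + 1))) := by
        rw [h4]; ring
      rw [h6]
      exact dvd_sub h3 h5
  have h := dvd_sum key
  rw [sum_add_distrib, sum_add_distrib, ← h1, ← mul_sum] at h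
  have e : 2 * W p s M + s * M * W p (s + 1) M = W p s M + W p s M + s * M * W p (s + 1) M := by ring
  rw [e]
  exact h

theorem dvd_iff_toZModPow {x : ℤ_[p]} (k : ℕ) :
    (p : ℤ_[p]) ^ k ∣ x ↔ PadicInt.toZModPow k x = 0 := by
  rw [← Ideal.mem_span_singleton, ← PadicInt.ker_toZModPow, RingHom.mem_ker]

/-- for `p ≥ 5`, `p ^ k` divides the sum of the inverse squares below `p ^ k` -/
theorem pow_dvd_W_two (h5 : 5 ≤ p) (k : ℕ) (hk : 1 ≤ k) : (p : ℤ_[p]) ^ k ∣ W p 2 (p ^ k) := by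
  have hpk : 0 < p ^ k := pow_pos hp.out.pos k
  have : NeZero (p ^ k) := ⟨hpk.ne'⟩
  have hdvd : p ∣ p ^ k := dvd_pow_self p (by omega)
  -- the image in `ZMod (p ^ k)`
  have h1 : PadicInt.toZModPow k (W p 2 (p ^ k)) =
      ∑ u : (ZMod (p ^ k))ˣ, ((u⁻¹ : (ZMod (p ^ k))ˣ) : ZMod (p ^ k)) ^ 2 := by
    rw [W, map_sum]
    have h2 : ∑ j ∈ range (p ^ k), PadicInt.toZModPow k (v p j ^ 2) =
        ∑ j ∈ (range (p ^ k)).filter (fun j => ¬ p ∣ j), PadicInt.toZModPow k (v p j ^ 2) := by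
      rw [sum_filter]
      refine sum_congr rfl fun j _ => ?_
      split_ifs with h
      · rw [v_of_dvd h]; simp
      · rfl
    rw [h2]
    symm
    have hcop : ∀ u : (ZMod (p ^ k))ˣ, ¬ p ∣ (u : ZMod (p ^ k)).val := by
      intro u hd
      have h3 := ZMod.val_coe_unit_coprime u
      have h4 : p ∣ Nat.gcd (u : ZMod (p ^ k)).val (p ^ k) := Nat.dvd_gcd hd hdvd
      rw [h3] at h4
      exact hp.out.one_lt.ne' (Nat.dvd_one.mp h4)
    refine sum_bij (fun u _ => (u : ZMod (p ^ k)).val) ?_ ?_ ?_ ?_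
    · intro u _
      rw [mem_filter, mem_range]
      exact ⟨ZMod.val_lt _, hcop u⟩
    · intro u _ w _ h
      exact Units.ext (ZMod.val_injective _ h)
    · intro j hj
      rw [mem_filter, mem_range] at hj
      have hc : Nat.Coprime j (p ^ k) :=
        Nat.Coprime.pow_right k ((Nat.Prime.coprime_iff_not_dvd hp.out).mpr hj.2).symm
      refine ⟨ZMod.unitOfCoprime j hc, mem_univ _, ?_⟩
      rw [ZMod.coe_unitOfCoprime, ZMod.val_natCast_of_lt hj.1]
    · intro u _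
      rw [map_pow]
      congr 1
      have h3 := congrArg (PadicInt.toZModPow k) (mul_v (p := p) (hcop u))
      rw [map_mul, map_natCast, map_one, ZMod.natCast_zmod_val] at h3
      exact Units.inv_eq_of_mul_eq_one_right h3
  -- the substitution `u -> 2 u`
  have h2c : Nat.Coprime 2 (p ^ k) := by
    refine Nat.Coprime.pow_right k ?_
    rw [Nat.coprime_comm]
    exact (Nat.Prime.coprime_iff_not_dvd hp.out).mpr (fun h => by
      have := Nat.le_of_dvd (by norm_num) h; omega)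
  set g : (ZMod (p ^ k))ˣ := ZMod.unitOfCoprime 2 h2c with hg
  set S := ∑ u : (ZMod (p ^ k))ˣ, ((u⁻¹ : (ZMod (p ^ k))ˣ) : ZMod (p ^ k)) ^ 2 with hS
  have h4 : S = ∑ u : (ZMod (p ^ k))ˣ, (((g * u)⁻¹ : (ZMod (p ^ k))ˣ) : ZMod (p ^ k)) ^ 2 :=
    (Equiv.sum_comp (Equiv.mulLeft g)
      (fun u : (ZMod (p ^ k))ˣ => ((u⁻¹ : (ZMod (p ^ k))ˣ) : ZMod (p ^ k)) ^ 2)).symm
  have h5' : ((g : (ZMod (p ^ k))ˣ) : ZMod (p ^ k)) = 2 := by
    rw [hg, ZMod.coe_unitOfCoprime]; norm_num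
  have h6 : 4 * S = S := by
    conv_lhs => rw [h4]
    rw [mul_sum, hS]
    refine sum_congr rfl fun u _ => ?_
    rw [mul_inv, Units.val_mul, mul_pow]
    have h7 : (4 : ZMod (p ^ k)) * ((g⁻¹ : (ZMod (p ^ k))ˣ) : ZMod (p ^ k)) ^ 2 = 1 := by
      have h8 : ((g : (ZMod (p ^ k))ˣ) : ZMod (p ^ k)) * ((g⁻¹ : (ZMod (p ^ k))ˣ) : ZMod (p ^ k)) = 1 :=
        Units.mul_inv g
      rw [h5'] at h8
      linear_combination (2 * ((g⁻¹ : (ZMod (p ^ k))ˣ) : ZMod (p ^ k)) + 1) * h8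
    rw [← mul_assoc, h7, one_mul]
  have h7 : 3 * S = 0 := by linear_combination h6
  have h3u : IsUnit ((3 : ℕ) : ZMod (p ^ k)) := by
    rw [ZMod.isUnit_iff_coprime]
    refine Nat.Coprime.pow_right k ?_
    rw [Nat.coprime_comm]
    exact (Nat.Prime.coprime_iff_not_dvd hp.out).mpr (fun h => by
      have := Nat.le_of_dvd (by norm_num) h; omega)
  rw [dvd_iff_toZModPow, h1]
  have h8 : ((3 : ℕ) : ZMod (p ^ k)) * S = 0 := by push_cast; exact h7
  exact (h3u.mul_right_eq_zero).mp h8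

end Q33.Harm
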