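import Pool.Agent.Q33.Harm.Shift

/-!
The elements `p ^ r / j` of `ℤ_[p]` and the terms of Bala's sequence at `p ^ r`.
-/

namespace Q33.Harm

open Finset

variable {p : ℕ} [hp : Fact p.Prime]

/-- the terms of the sequence, for any domain of characteristic zero -/
theorem term_eq {R : Type*} [CommRing R] [IsDomain R] [CharZero R] (n : ℕ) (X : ℕ → R)
    (hX : ∀ j ∈ Ico 1 n, (j : R) * X j = n) :
    ∀ j ∈ Ico 1 n, ((n.choose j * (n - 1).choose j * ((n + j - 1).choose j) ^ 2 : ℕ) : R) =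
      -(X j ^ 3 * (1 - X j) * (∏ i ∈ Ico 1 j, (1 - X i ^ 2)) ^ 2) := by
  have hpred : ∀ j : ℕ, j < n →
      (((n - 1).choose j : ℕ) : R) = (-1) ^ j * ∏ i ∈ Ico 1 (j + 1), (1 - X i) := by
    intro j
    induction j with
    | zero => intro _; simp
    | succ j ih =>
      intro hj
      have ih' := ih (by omega)
      have hm := hX (j + 1) (by rw [mem_Ico]; omega)
      have h1 := Nat.choose_succ_right_eq (n - 1) j
      have h2 : (((n - 1).choose (j + 1) : ℕ) : R) * ((j + 1 : ℕ) : R) =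
          (((n - 1).choose j : ℕ) : R) * ((n : R) - ((j + 1 : ℕ) : R)) := by
        have h3 : ((n - 1 - j : ℕ) : R) = (n : R) - ((j + 1 : ℕ) : R) := by
          rw [← Nat.cast_sub hj.le]
          congr 1
          omega
        rw [← h3]
        exact_mod_cast congrArg (fun n : ℕ => (n : R)) h1
      have h0 : ((j + 1 : ℕ) : R) ≠ 0 := Nat.cast_ne_zero.mpr (by omega)
      apply mul_right_cancel₀ h0
      rw [h2, ih', prod_Ico_succ_top (by omega : 1 ≤ j + 1), pow_succ]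
      linear_combination ((-1) ^ j * ∏ i ∈ Ico 1 (j + 1), (1 - X i)) * (-hm)
  have hadd : ∀ j : ℕ, 1 ≤ j → j < n →
      (((n + j - 1).choose j : ℕ) : R) = X j * ∏ i ∈ Ico 1 j, (1 + X i) := by
    intro j hj
    induction j, hj using Nat.le_induction with
    | base =>
      intro hj
      have hm := hX 1 (by rw [mem_Ico]; omega)
      rw [Nat.cast_one, one_mul] at hm
      simp [hm]
    | succ j hj ih =>
      intro hj'
      have ih' := ih (by omega)
      have hm := hX (j + 1) (by rw [mem_Ico]; omega)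
      have hm' := hX j (by rw [mem_Ico]; omega)
      have h1 : (n + (j + 1) - 1).choose (j + 1) * (j + 1) = (n + j) * (n + j - 1).choose j := by
        have h3 := Nat.add_one_mul_choose_eq (n + j - 1) j
        rw [show n + j - 1 + 1 = n + j by omega] at h3
        rw [show n + (j + 1) - 1 = n + j by omega]
        exact h3.symm
      have h4 : (((n + (j + 1) - 1).choose (j + 1) : ℕ) : R) * ((j + 1 : ℕ) : R) =
          ((n : R) + (j : R)) * (((n + j - 1).choose j : ℕ) : R) := by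
        exact_mod_cast congrArg (fun n : ℕ => (n : R)) h1
      have h0 : ((j + 1 : ℕ) : R) ≠ 0 := Nat.cast_ne_zero.mpr (by omega)
      apply mul_right_cancel₀ h0
      rw [h4, ih', prod_Ico_succ_top hj]
      linear_combination (-(1 + X j) * ∏ i ∈ Ico 1 j, (1 + X i)) * hm +
        (∏ i ∈ Ico 1 j, (1 + X i)) * hm'
  intro j hj
  have hj' := hj
  rw [mem_Ico] at hj'
  have h1 := hpred j hj'.2
  have h2 := hadd j hj'.1 hj'.2
  have h3 := hpred (j - 1) (by omega)
  rw [show j - 1 + 1 = j by omega] at h3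
  rw [prod_Ico_succ_top hj'.1] at h1
  have h5 : n * (n - 1).choose (j - 1) = n.choose j * j := by
    have h3 := Nat.add_one_mul_choose_eq (n - 1) (j - 1)
    rw [show n - 1 + 1 = n by omega, show j - 1 + 1 = j by omega] at h3
    exact h3
  have hm := hX j hj
  have h0 : (j : R) ≠ 0 := Nat.cast_ne_zero.mpr (by omega)
  have h4 : ((n.choose j : ℕ) : R) = X j * (((n - 1).choose (j - 1) : ℕ) : R) := by
    apply mul_right_cancel₀ h0
    have h6 : (n : R) * (((n - 1).choose (j - 1) : ℕ) : R) = ((n.choose j : ℕ) : R) * (j : R) := by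
      exact_mod_cast congrArg (fun n : ℕ => (n : R)) h5
    rw [← h6, ← hm]; ring
  have hprod : ∏ i ∈ Ico 1 j, (1 - X i ^ 2) = (∏ i ∈ Ico 1 j, (1 - X i)) * ∏ i ∈ Ico 1 j, (1 + X i) := by
    rw [← prod_mul_distrib]
    exact prod_congr rfl fun i _ => by ring
  push_cast
  rw [h4, h3, h1, h2, hprod]
  have hs : ((-1 : R)) ^ (j - 1) * (-1) ^ j = -1 := by
    rw [← pow_add]
    have : Odd (j - 1 + j) := ⟨j - 1, by omega⟩
    exact this.neg_one_pow
  linear_combination X j ^ 3 * (1 - X j) * (∏ i ∈ Ico 1 j, (1 - X i)) ^ 2 *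
    (∏ i ∈ Ico 1 j, (1 + X i)) ^ 2 * hs

/-- `p ^ r / j` (if the valuation of `j` is at most `r`) -/
noncomputable def X (p : ℕ) [Fact p.Prime] (r j : ℕ) : ℤ_[p] :=
  (p : ℤ_[p]) ^ (r - padicValNat p j) * v p (j / p ^ padicValNat p j)

theorem X_eq {r s i : ℕ} (hi : ¬ p ∣ i) : X p r (p ^ s * i) = (p : ℤ_[p]) ^ (r - s) * v p i := by
  have hi0 : i ≠ 0 := by rintro rfl; exact hi (dvd_zero p)
  have h1 : padicValNat p (p ^ s * i) = s := by
    rw [padicValNat.mul (pow_ne_zero s hp.out.ne_zero) hi0, padicValNat.prime_pow,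
      padicValNat.eq_zero_of_not_dvd hi, add_zero]
  rw [X, h1, Nat.mul_div_cancel_left i (pow_pos hp.out.pos s)]

theorem exists_form {j : ℕ} (hj : 0 < j) : ∃ s i : ℕ, ¬ p ∣ i ∧ j = p ^ s * i := by
  obtain ⟨s, i, hi, h⟩ := Nat.exists_eq_pow_mul_and_not_dvd hj.ne' p hp.out.ne_one
  exact ⟨s, i, hi, h⟩

theorem lt_of_form {r s i : ℕ} (hi : ¬ p ∣ i) (h : p ^ s * i < p ^ r) : s < r := by
  by_contra hc
  rw [not_lt] at hc
  have hi0 : 0 < i := Nat.pos_of_ne_zero (by rintro rfl; exact hi (dvd_zero p))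
  have h1 : p ^ r ≤ p ^ s := Nat.pow_le_pow_right hp.out.pos hc
  have h2 : p ^ s ≤ p ^ s * i := Nat.le_mul_of_pos_right _ hi0
  omega

theorem mul_X {r j : ℕ} (h : j ∈ Ico 1 (p ^ r)) : (j : ℤ_[p]) * X p r j = ((p ^ r : ℕ) : ℤ_[p]) := by
  rw [mem_Ico] at h
  obtain ⟨s, i, hi, rfl⟩ := exists_form (p := p) h.1
  have hs := lt_of_form hi h.2
  rw [X_eq hi]
  have e := mul_v hi
  push_cast
  have h2 : (p : ℤ_[p]) ^ r = (p : ℤ_[p]) ^ s * (p : ℤ_[p]) ^ (r - s) := by
    rw [← pow_add]; congr 1; omega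
  rw [h2]
  linear_combination (p : ℤ_[p]) ^ s * (p : ℤ_[p]) ^ (r - s) * e

theorem X_of_not_dvd {r j : ℕ} (h : ¬ p ∣ j) : X p r j = (p : ℤ_[p]) ^ r * v p j := by
  have := X_eq (p := p) (r := r) (s := 0) h
  rwa [pow_zero, one_mul, Nat.sub_zero] at this

theorem X_mul {r j : ℕ} (hj : 0 < j) : X p (r + 1) (p * j) = X p r j := by
  obtain ⟨s, i, hi, rfl⟩ := exists_form (p := p) hj
  rw [← mul_assoc, ← pow_succ', X_eq hi, X_eq hi]
  congr 2
  omega

theorem dvd_X {r j : ℕ} (h : j ∈ Ico 1 (p ^ r)) : (p : ℤ_[p]) ∣ X p r j := by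
  rw [mem_Ico] at h
  obtain ⟨s, i, hi, rfl⟩ := exists_form (p := p) h.1
  have hs := lt_of_form hi h.2
  rw [X_eq hi]
  exact Dvd.dvd.mul_right (dvd_pow_self _ (by omega)) _

/-- if `p ^ (r-1)` does not divide `j`, then `p ^ 2` divides `p ^ r / j` -/
theorem sq_dvd_X {r j : ℕ} (h : 0 < j) (hr : 1 ≤ r) (hd : ¬ p ^ (r - 1) ∣ j) :
    (p : ℤ_[p]) ^ 2 ∣ X p r j := by
  obtain ⟨s, i, hi, rfl⟩ := exists_form (p := p) h
  have hs : s + 2 ≤ r := by
    by_contra hc
    exact hd (Dvd.dvd.mul_right (pow_dvd_pow p (by omega)) i)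
  rw [X_eq hi]
  exact Dvd.dvd.mul_right (pow_dvd_pow _ (by omega)) _

/-- the product of the `1 - (p ^ r / i) ^ 2` over `i < j` -/
noncomputable def P (p : ℕ) [Fact p.Prime] (r j : ℕ) : ℤ_[p] := ∏ i ∈ Ico 1 j, (1 - X p r i ^ 2)

end Q33.Harm
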